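import Pool.Agent.TH755.BE.NegB

/-!
# The adversary makes exponential time easy
-/

set_option autoImplicit false

namespace Pool.Agent.TH755.BE

open Pool.Agent.NPC Pool.Agent.H620R2.Gauge Finset MeasureTheory Filter
open Pool.Agent.H622R2.Exp (InTime Lin Pol)
open Pool.Agent.H622R2.Ckt
open Pool.Agent.W900.BC
open Pool.Agent.TH707.EC (Jobs keys mem_keys card_keys seqA seqB ev_one_div)

section

variable (g : ℕ → Alg × ℕ) {ε : ℕ → ℝ} (ν μ : ℕ → ℕ) (hν : StrictMono ν)
  (h2 : 2 ≤ ν 0) (hG : ∀ t, Gd g ε (μ t) (ν t))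

/-- the numbers -/
def jb : Jobs where
  M := μ
  r := ν
  k t := ll (μ t) (ν t) / 2
  ℓ t := ll (μ t) (ν t)
  Q _ _ _ _ := False
  u _ := 0
  loc _ _ := ⟨∅, by simp, fun _ _ _ _ _ _ => Iff.rfl⟩
  key t := by simp
  len t := by
    obtain ⟨K, hK, -⟩ := hG t
    have h1 := hK.len
    have h3 := Pool.Agent.TH707.EC.length_bits_mono (hν.id_le t)
    simp only [id_eq] at h3
    omega
  le t := by
    obtain ⟨K, hK, -⟩ := hG t
    have h1 := hK.le
    have h3 := hν.id_le t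
    simp only [id_eq] at h3
    omega

open Classical in
/-- the jobs -/
noncomputable def bj : BJ where
  J := jb g ν μ hν hG
  Q _ e x A := (g e).1.run A x (rd g e x.length) [] = some [true]
  U t A := (range (μ t)).biUnion fun e => (keys (ν t)).biUnion fun x =>
    qs (g e).1 A x (rd g e x.length)
  u t := uu g (μ t) (ν t)
  W t := WW g (μ t) (ν t)
  card_U := by
    intro t A
    unfold uu
    refine card_biUnion_le.trans (sum_le_sum fun e _ => ?_)
    refine card_biUnion_le.trans ?_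
    have h1 : ∀ x ∈ keys (ν t), (qs (g e).1 A x (rd g e x.length)).card ≤ rd g e (ν t) := by
      intro x hx
      have h2 := (qs_spec (g e).1 A x (rd g e x.length)).1
      rwa [mem_keys.1 hx] at h2 ⊢
    refine (sum_le_sum h1).trans ?_
    rw [sum_const, smul_eq_mul, card_keys]
  len_U := by
    intro t A y hy
    rw [mem_biUnion] at hy
    obtain ⟨e, he, hy⟩ := hy
    rw [mem_biUnion] at hy
    obtain ⟨x, hx, hy⟩ := hy
    have h3 := (qs_spec (g e).1 A x (rd g e x.length)).2.1 y hy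
    rw [mem_keys.1 hx] at h3
    refine h3.trans ?_
    unfold WW
    have h4 := single_le_sum (f := fun e => (bl (g e).1).eval (ν t + rd g e (ν t)))
      (fun _ _ => Nat.zero_le _) he
    omega
  loc := by
    intro t A A' hA' e he x hx
    have h1 := (qs_spec (g e).1 A x (rd g e x.length)).2.2 A' fun y hy => hA' y
      (mem_biUnion.2 ⟨e, mem_range.2 he, mem_biUnion.2 ⟨x, mem_keys.2 hx, hy⟩⟩)
    rw [h1]
  key := by
    intro t
    show ∑ s ∈ (range (ll (μ t) (ν t) + 1)).filter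
      (fun s => ll (μ s) (ν s) ≤ ll (μ t) (ν t)), uu g (μ s) (ν s) < 2 ^ (ll (μ t) (ν t) / 2)
    set l := ll (μ t) (ν t) with hl
    have h1 : ∀ s ∈ (range (l + 1)).filter (fun s => ll (μ s) (ν s) ≤ l),
        uu g (μ s) (ν s) ≤ 2 ^ (l / 4) := by
      intro s hs
      obtain ⟨K, hK, -⟩ := hG s
      refine hK.uu.trans (Nat.pow_le_pow_right (by norm_num) ?_)
      exact Nat.div_le_div_right (mem_filter.1 hs).2
    refine lt_of_le_of_lt (sum_le_sum h1) ?_
    rw [sum_const, smul_eq_mul]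
    have h3 : ((range (l + 1)).filter (fun s => ll (μ s) (ν s) ≤ l)).card ≤ l + 1 := by
      refine (card_le_card (filter_subset _ _)).trans (le_of_eq (card_range _))
    obtain ⟨K, hK, -⟩ := hG t
    have h4 := hK.big
    rw [← hl] at h4
    have h5 : (0 : ℕ) < 2 ^ (l / 4) := by positivity
    calc ((range (l + 1)).filter (fun s => ll (μ s) (ν s) ≤ l)).card * 2 ^ (l / 4)
        ≤ (l + 1) * 2 ^ (l / 4) := Nat.mul_le_mul_right _ h3
      _ < 2 ^ (l / 4) * 2 ^ (l / 4) := Nat.mul_lt_mul_of_pos_right h4 h5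
      _ ≤ 2 ^ (l / 2) := by
        rw [← pow_add]
        exact Nat.pow_le_pow_right (by norm_num) (by omega)
  le_W := by
    intro t
    exact Nat.le_add_right _ _

include hν h2 hG in
theorem coded_seq (hε : ∀ n, 0 ≤ ε n) :
    ∃ m : Measure Oracle, IsProbabilityMeasure m ∧ Biased ε m ∧
      ∀ᵐ A ∂m, ∀ᶠ t in atTop, ∀ e < μ t, ∃ (v : List Bool) (c : ℕ),
        v.length + ν t + c = ll (μ t) (ν t) ∧ ∀ x : List Bool, x.length = ν t →
          (A (v ++ x ++ List.replicate c false) = true ↔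
            (g e).1.run A x (rd g e x.length) [] = some [true]) := by
  choose K hK hb using hG
  set X := bj g ν μ hν (fun t => ⟨K t, hK t, hb t⟩) with hX
  set b : ℕ → ℝ := fun t => 2 * (1 / (ll (μ t) (ν t) : ℝ) ^ (K t + 2)) with hbdef
  have hlt : ∀ t, t + 2 ≤ ll (μ t) (ν t) := by
    intro t
    have h3 : ν 0 + t ≤ ν t := by
      induction t with
      | zero => exact le_rfl
      | succ t ih =>
        have h4 := hν (Nat.lt_succ_self t)
        simp only [Nat.succ_eq_add_one] at h4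
        omega
    have := (hK t).le
    omega
  refine X.coded hε (b := b) (fun t => by positivity) ?_ ?_
  · intro t m h3 h4
    have h5 := hb t m h3 (h4.trans (hK t).WW)
    rw [hbdef]
    dsimp only
    linarith
  · have hs : Summable (fun t : ℕ => 2 * (1 / ((t : ℝ) + 1) ^ 2)) := by
      apply Summable.mul_left
      have h2 := (summable_nat_add_iff 1).2 (Real.summable_one_div_nat_pow.2 (one_lt_two))
      refine h2.congr fun i => ?_
      push_cast
      rfl
    refine Summable.of_nonneg_of_le (fun t => by positivity) (fun t => ?_) hs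
    have h3 : ((X.u t + X.J.M t * 2 ^ X.J.r t : ℕ) : ℝ) ≤ (ll (μ t) (ν t) : ℝ) ^ (K t) := by
      exact_mod_cast (hK t).cost
    have h4 : (0 : ℝ) < (ll (μ t) (ν t) : ℝ) := by
      have := hlt t
      have : 0 < ll (μ t) (ν t) := by omega
      exact_mod_cast this
    have h5 : ((t : ℝ) + 1) ≤ (ll (μ t) (ν t) : ℝ) := by
      have := hlt t
      have : t + 1 ≤ ll (μ t) (ν t) := by omega
      exact_mod_cast this
    calc ((X.u t + X.J.M t * 2 ^ X.J.r t : ℕ) : ℝ) * b t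
        ≤ (ll (μ t) (ν t) : ℝ) ^ (K t) * b t :=
          mul_le_mul_of_nonneg_right h3 (by positivity)
      _ = 2 * (1 / (ll (μ t) (ν t) : ℝ) ^ 2) := by
          rw [hbdef]
          dsimp only
          rw [pow_add]
          field_simp
      _ ≤ 2 * (1 / ((t : ℝ) + 1) ^ 2) := by
          refine mul_le_mul_of_nonneg_left ?_ (by norm_num)
          exact one_div_le_one_div_of_le (by positivity)
            (pow_le_pow_left₀ (by positivity) h5 2)

end

theorem small_of_coded {g : ℕ → Alg × ℕ} {A : Oracle} {E n e : ℕ} (hn : 1 ≤ n)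
    (hlen : n ≤ ll E n)
    (h : ∃ (v : List Bool) (c : ℕ), v.length + n + c = ll E n ∧
        ∀ x : List Bool, x.length = n →
          (A (v ++ x ++ List.replicate c false) = true ↔
            (g e).1.run A x (rd g e x.length) [] = some [true]))
    {L : Set (List Bool)}
    (hL : ∀ x : List Bool, ∃ z : List Bool,
      (g e).1.run A x (rd g e x.length) [] = some z ∧ (x ∈ L ↔ z = [true]))
    {δ : ℝ} (hδ : (1 : ℝ) / E ≤ δ) : Small A L (2 ^ (δ * n)) n := by
  obtain ⟨v, c, h1, h2⟩ := h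
  obtain ⟨C, hC1, hC2⟩ := exists_circuit v (List.replicate c false) n
  refine ⟨C, ?_, fun x hx => ?_⟩
  · have h3 : C.size = ll E n + 1 := by
      rw [hC1, List.length_replicate]
      omega
    have h5 : ll E n + 1 < 2 ^ (n / E) := by
      have h7 : ll E n = 2 ^ (n / E) - 2 := rfl
      omega
    have h6 : (C.size : ℝ) < ((2 ^ (n / E) : ℕ) : ℝ) := by
      rw [h3]
      exact_mod_cast h5
    refine lt_of_lt_of_le h6 ?_
    push_cast
    rw [← Real.rpow_natCast]
    apply Real.rpow_le_rpow_of_exponent_le (by norm_num)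
    refine (Nat.cast_div_le).trans ?_
    have h8 : (0 : ℝ) ≤ n := Nat.cast_nonneg n
    calc (n : ℝ) / E = 1 / E * n := by ring
      _ ≤ δ * n := mul_le_mul_of_nonneg_right hδ h8
  · rw [hC2 A x hx, h2 x hx]
    obtain ⟨z, hz, hxz⟩ := hL x
    rw [hxz, hz, Option.some.injEq]

theorem exists_pairs : ∃ g : ℕ → Alg × ℕ, Function.Surjective g := by
  obtain ⟨al, hal⟩ := exists_alg
  have h2 : Countable Alg := hal.countable
  have h3 : Nonempty (Alg × ℕ) := ⟨(al 0, 0)⟩
  exact exists_surjective_nat (Alg × ℕ)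

theorem run_of_inTime {g : ℕ → Alg × ℕ} (hg : Function.Surjective g) {A : Oracle}
    {L : Set (List Bool)} (h : InTime Lin A L) : ∃ e, ∀ x : List Bool, ∃ z : List Bool,
      (g e).1.run A x (rd g e x.length) [] = some z ∧ (x ∈ L ↔ z = [true]) := by
  obtain ⟨M, q, ⟨c, hc⟩, hM⟩ := h
  obtain ⟨e, he⟩ := hg (M, c)
  refine ⟨e, fun x => ?_⟩
  obtain ⟨z, h1, h2⟩ := hM x
  refine ⟨z, ?_, h2⟩
  unfold rd
  rw [he]
  rw [hc] at h1
  simpa using h1

/-- the first negative half -/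
theorem negA {ε : ℕ → ℝ} (hε : ∀ n, 0 ≤ ε n)
    (h : ¬ ∃ K : ℕ, ∀ᶠ l : ℕ in atTop, ∃ m, l ≤ m ∧ m ≤ l ^ K ∧
      1 / (l : ℝ) ^ K ≤ 1 / 2 - ε m) :
    ∃ μ : Measure Oracle, IsProbabilityMeasure μ ∧ Biased ε μ ∧
      ∀ᵐ A ∂μ, ∀ L, InTime Lin A L → ∀ δ : ℝ, 0 < δ →
        ∃ᶠ n : ℕ in atTop, Small A L (2 ^ (δ * n)) n := by
  obtain ⟨g, hg⟩ := exists_pairs
  have h' : ∀ K : ℕ, ∃ᶠ l : ℕ in atTop, ∀ m, l ≤ m → m ≤ l ^ K →
      1 / 2 - ε m < 1 / (l : ℝ) ^ K := by
    intro K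
    push Not at h
    exact h K
  obtain ⟨ν, μ, h1, h2, h3, h4, h5, h6⟩ := seqA (fun E hE => goodA g h' hE)
  obtain ⟨m, hm1, hm2, hm3⟩ := coded_seq g ν μ h1 h2 h6 hε
  refine ⟨m, hm1, hm2, ?_⟩
  filter_upwards [hm3] with A hA L hL δ hδ
  obtain ⟨e, he⟩ := run_of_inTime hg hL
  have h7 : ∀ᶠ t in atTop, Small A L (2 ^ (δ * ν t)) (ν t) := by
    filter_upwards [ev_one_div h4 hδ e, hA, eventually_ge_atTop 1] with t ht hAt ht1
    obtain ⟨K, hK, -⟩ := h6 t
    refine small_of_coded ?_ hK.le (hAt e ht.1) he ht.2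
    have := h1.id_le t
    simp only [id_eq] at this
    omega
  exact h1.tendsto_atTop.frequently h7.frequently

/-- the second negative half -/
theorem negB {ε : ℕ → ℝ} (hε : ∀ n, 0 ≤ ε n)
    (h : ¬ ∃ K : ℕ, ∃ᶠ m : ℕ in atTop, 1 / (m : ℝ) ^ K ≤ 1 / 2 - ε m) :
    ∃ μ : Measure Oracle, IsProbabilityMeasure μ ∧ Biased ε μ ∧
      ∀ᵐ A ∂μ, ∀ L, InTime Lin A L → ∀ δ : ℝ, 0 < δ →
        ∀ᶠ n : ℕ in atTop, Small A L (2 ^ (δ * n)) n := by
  obtain ⟨g, hg⟩ := exists_pairs
  have h' : ∀ K : ℕ, ∀ᶠ m : ℕ in atTop, 1 / 2 - ε m < 1 / (m : ℝ) ^ K := by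
    intro K
    push Not at h
    exact h K
  obtain ⟨n₀, μ, h2, h3, h4, h5, h6⟩ := seqB (fun E hE => goodB g h' hE)
  have h1 : StrictMono (fun t => n₀ + t) := fun a b h => Nat.add_lt_add_left h n₀
  obtain ⟨m, hm1, hm2, hm3⟩ := coded_seq g (fun t => n₀ + t) μ h1 h2 h6 hε
  refine ⟨m, hm1, hm2, ?_⟩
  filter_upwards [hm3] with A hA L hL δ hδ
  obtain ⟨e, he⟩ := run_of_inTime hg hL
  have h7 : ∀ᶠ t in atTop, Small A L (2 ^ (δ * (n₀ + t : ℕ))) (n₀ + t) := by
    filter_upwards [ev_one_div h4 hδ e, hA] with t ht hAt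
    obtain ⟨K, hK, -⟩ := h6 t
    exact small_of_coded (by omega) hK.le (hAt e ht.1) he ht.2
  obtain ⟨t₀, ht₀⟩ := eventually_atTop.1 h7
  filter_upwards [eventually_ge_atTop (n₀ + t₀)] with n hn
  obtain ⟨t, rfl⟩ : ∃ t, n = n₀ + t := ⟨n - n₀, by omega⟩
  exact ht₀ t (by omega)

end Pool.Agent.TH755.BE
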