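import Pool.Agent.W900.BC.Neg3

/-!
# Guessing bits tossed with biased coins
-/

set_option autoImplicit false

namespace Pool.Agent.TH755.BE

open Pool.Agent.H620R2.Gauge Pool.Agent.NPC Pool.Agent.W900.BC MeasureTheory

open Classical in
theorem dep_eq {N : ℕ} {T : Set Oracle} (hT : Dep N T) :
    T = ⋃ a ∈ Finset.univ.filter (fun a : Fin N → Bool => ∃ A ∈ T, pre N A = a),
      {A | pre N A = a} := by
  ext A
  rw [Set.mem_iUnion₂]
  constructor
  · intro hA
    exact ⟨pre N A, Finset.mem_filter.2 ⟨Finset.mem_univ _, A, hA, rfl⟩, rfl⟩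
  · rintro ⟨a, ha, hAa⟩
    obtain ⟨B, hB, hBa⟩ := (Finset.mem_filter.1 ha).2
    exact hT B A (hBa.trans (Eq.symm hAa)) hB

theorem pre_ext {N : ℕ} (a : Fin N → Bool) :
    {A : Oracle | pre N A = a} = {A | Extends A (List.ofFn a)} := by
  ext A
  exact ext_ofFn.symm

open Classical in
/-- one more bit is guessed -/
theorem step_le {ε : ℕ → ℝ} {μ : Measure Oracle} (h : Biased ε μ) {N : ℕ} {S : Set Oracle}
    (hS : Dep N S) {f : Oracle → Bool} (hf : ∀ A B, pre N A = pre N B → f A = f B) :
    μ (S ∩ {A | A (str N) = f A}) ≤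
      ENNReal.ofReal (1 / 2 + ε (str N).length) * μ S := by
  set I : Finset (Fin N → Bool) :=
    Finset.univ.filter (fun a : Fin N → Bool => ∃ A ∈ S, pre N A = a) with hI
  have hS' : S = ⋃ a ∈ I, {A | pre N A = a} := dep_eq hS
  have hμS : μ S = ∑ a ∈ I, μ {A : Oracle | pre N A = a} := by
    conv_lhs => rw [hS']
    refine measure_biUnion_finset ?_ ?_
    · intro a _ b _ hab
      rw [Function.onFun, Set.disjoint_left]
      rintro A h1 h2
      exact hab (Eq.trans (Eq.symm h1) h2)
    · intro a _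
      rw [pre_ext]
      exact meas_ext _
  rw [hμS, Finset.mul_sum]
  have hsub : S ∩ {A | A (str N) = f A} ⊆
      ⋃ a ∈ I, {A : Oracle | pre N A = a ∧ A (str N) = f A} := by
    rintro A ⟨h1, h2⟩
    rw [hS', Set.mem_iUnion₂] at h1
    obtain ⟨a, ha, h3⟩ := h1
    exact Set.mem_iUnion₂.2 ⟨a, ha, h3, h2⟩
  refine (measure_mono hsub).trans ((measure_biUnion_finset_le _ _).trans
    (Finset.sum_le_sum fun a ha => ?_))
  obtain ⟨B, hB, hBa⟩ := (Finset.mem_filter.1 ha).2
  have h1 : {A : Oracle | pre N A = a ∧ A (str N) = f A} ⊆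
      {A | Extends A (List.ofFn a ++ [f B])} := by
    rintro A ⟨h2, h3⟩
    rw [Set.mem_ofPred_eq, ext_single, ext_ofFn, List.length_ofFn]
    exact ⟨h2, h3.trans (hf A B (h2.trans hBa.symm))⟩
  refine (measure_mono h1).trans ?_
  have h2 := h (List.ofFn a) (f B)
  rw [List.length_ofFn] at h2
  rw [pre_ext]
  exact h2

/-- bits are guessed -/
theorem chain_le {ε : ℕ → ℝ} {μ : Measure Oracle} [IsProbabilityMeasure μ] (h : Biased ε μ)
    {θ : ENNReal} (P : Finset ℕ) (f : ℕ → Oracle → Bool)
    (hf : ∀ i ∈ P, ∀ A B, pre i A = pre i B → f i A = f i B)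
    (hθ : ∀ i ∈ P, ENNReal.ofReal (1 / 2 + ε (str i).length) ≤ θ) :
    μ {A | ∀ i ∈ P, A (str i) = f i A} ≤ θ ^ P.card := by
  classical
  induction P using Finset.induction_on_max with
  | empty => simp
  | insert a s ha ih =>
    have ih' := ih (fun i hi => hf i (Finset.mem_insert_of_mem hi))
      (fun i hi => hθ i (Finset.mem_insert_of_mem hi))
    have hnot : a ∉ s := fun h1 => lt_irrefl _ (ha a h1)
    rw [Finset.card_insert_of_notMem hnot, pow_succ, mul_comm]
    have hdep : Dep a {A : Oracle | ∀ i ∈ s, A (str i) = f i A} := by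
      intro A B hAB hA i hi
      have h1 : A (str i) = B (str i) := congrFun hAB ⟨i, ha i hi⟩
      have h2 : pre i A = pre i B := by
        funext j
        exact congrFun hAB ⟨j.1, j.2.trans (ha i hi)⟩
      rw [← h1, ← hf i (Finset.mem_insert_of_mem hi) A B h2]
      exact hA i hi
    have h1 := step_le h hdep (hf a (Finset.mem_insert_self a s))
    have h2 : {A : Oracle | ∀ i ∈ insert a s, A (str i) = f i A} =
        {A : Oracle | ∀ i ∈ s, A (str i) = f i A} ∩ {A | A (str a) = f a A} := by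
      ext A
      simp only [Finset.mem_insert, forall_eq_or_imp, Set.mem_ofPred_eq, Set.mem_inter_iff]
      exact and_comm
    rw [h2]
    exact h1.trans (mul_le_mul' (hθ a (Finset.mem_insert_self a s)) ih')

end Pool.Agent.TH755.BE
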