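import Pool.Agent.TH707.EC.LangE
import Pool.Agent.TH755.CL.Halve
import Pool.Agent.H628R3.RO.G1

/-!
# The test language with a number for the padding
-/

set_option autoImplicit false

namespace Pool.Agent.TH755.BE

open Pool.Agent.NPC Pool.Agent.H620R2.Gauge Finset
open Pool.Agent.H622R2.Exp (InTime Lin Pol)

/-- the string asked for the input `z`: the string `z`, followed by as many zeros as the
number with the binary digits given by the second half -/
def qz (z : List Bool) : List Bool :=
  z ++ List.replicate (valB (z.drop (z.length / 2))) false

/-- the test language -/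
def tl (A : Oracle) : Set (List Bool) := {z | A (qz z) = true}

namespace Lang

/-- the next action -/
def act (p : List Bool × List Bool) : List Bool :=
  if p.2.length < valB (p.1.drop (p.1.length / 2)) then [false] else
    if p.2.length = valB (p.1.drop (p.1.length / 2)) then
      false :: (p.1 ++ p.2.map (fun _ => false))
    else [true, p.2.reverse.head?.getD false]

theorem poly_act : NPC.Poly (fun y => act (unpair y)) := by
  have hx : NPC.Poly (fun y => (unpair y).1) := NPC.Poly.fst poly_unpair
  have ha : NPC.Poly (fun y => (unpair y).2) := NPC.Poly.snd poly_unpair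
  have hd : UPoly (fun y : List Bool => (unpair y).1.length / 2) :=
    UPoly.of_le (NPC.Poly.div (UPoly.length hx).toPoly (NPC.Poly.const 2)) (UPoly.length hx)
      fun y => Nat.div_le_self _ _
  have hR : NPC.Poly (fun y : List Bool => valB ((unpair y).1.drop ((unpair y).1.length / 2))) :=
    NPC.Poly.valBits (Pool.Agent.H628R3.RO.p_drop hx hd)
  have hm : NPC.Poly (fun y : List Bool => (unpair y).2.map (fun _ => false)) :=
    NPC.Poly.map (F := fun _ _ => false) ha (NPC.Poly.const false)
  unfold act
  refine NPC.Poly.ite (NPC.Poly.decide_lt (NPC.Poly.length ha) hR) (NPC.Poly.const _)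
    (NPC.Poly.ite (NPC.Poly.decide_eq (NPC.Poly.length ha) hR) ?_ ?_)
  · exact NPC.Poly.cons (NPC.Poly.const _)
      (NPC.Poly.append hx hm)
  · exact NPC.Poly.cons (NPC.Poly.const _) (NPC.Poly.cons
      (NPC.Poly.head?_getD (NPC.Poly.reverse ha) false) (NPC.Poly.const _))

/-- the algorithm -/
noncomputable def alg : Alg where
  D := fun y => act (unpair y)
  poly := Pool.Agent.H622R2.polyTime_of_poly_list poly_act
  p := 0

theorem alg_D (x a : List Bool) : alg.D (pairBits x a) = act (x, a) := by
  change act (unpair (pairBits x a)) = _
  rw [unpair_pairBits]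

theorem run_alg (A : Oracle) (x : List Bool) : ∀ (n : ℕ) (a : List Bool),
    n + a.length = valB (x.drop (x.length / 2)) →
    alg.run A x (n + 2) a = some [A (qz x)] := by
  intro n
  induction n with
  | zero =>
    intro a ha
    rw [Nat.zero_add] at ha
    have h1 : alg.D (pairBits x a) = false :: qz x := by
      rw [alg_D]
      unfold act
      rw [if_neg (by simp only; omega), if_pos (by simp only; omega)]
      unfold qz
      simp only
      rw [List.map_const', ha]
    have h2 : alg.D (pairBits x (a ++ [A (qz x)])) = true :: [A (qz x)] := by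
      rw [alg_D]
      unfold act
      rw [if_neg (by simp only [List.length_append, List.length_singleton]; omega),
        if_neg (by simp only [List.length_append, List.length_singleton]; omega)]
      simp
    simp only [Alg.run, h1, h2]
  | succ n ih =>
    intro a ha
    have h1 : alg.D (pairBits x a) = false :: [] := by
      rw [alg_D]
      unfold act
      rw [if_pos (by simp only; omega)]
    have h2 := ih (a ++ [A []]) (by rw [List.length_append, List.length_singleton]; omega)
    have h3 : n + 1 + 2 = (n + 2) + 1 := by ring
    rw [h3, Alg.run]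
    simp only [h1]
    exact h2

end Lang

theorem valB_lt (l : List Bool) : valB l < 2 ^ l.length := by
  induction l with
  | nil => simp [valB]
  | cons b l ih =>
    rw [valB_cons, List.length_cons, pow_succ]
    cases b <;> simp <;> omega

theorem tl_inTime (A : Oracle) : InTime Lin A (tl A) := by
  refine ⟨Lang.alg, Polynomial.C 2 * (Polynomial.X + 1), ⟨2, rfl⟩,
    fun x => ⟨[A (qz x)], ?_, ?_⟩⟩
  · refine Alg.run_mono _ A x _ (valB (x.drop (x.length / 2)) + 2) _ [] ?_
      (Lang.run_alg A x _ [] (by simp))
    have h1 : (Polynomial.C 2 * (Polynomial.X + 1)).eval x.length = 2 * (x.length + 1) := by simp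
    rw [h1]
    have h2 := valB_lt (x.drop (x.length / 2))
    have h3 : 2 ^ (x.drop (x.length / 2)).length ≤ 2 ^ x.length :=
      Nat.pow_le_pow_right (by norm_num) (by rw [List.length_drop]; omega)
    have h4 : 2 ^ (2 * (x.length + 1)) = 4 * (2 ^ x.length * 2 ^ x.length) := by
      rw [← pow_add, show 2 * (x.length + 1) = 2 + (x.length + x.length) by ring, pow_add]
      norm_num
    have h5 : 1 ≤ 2 ^ x.length := Nat.one_le_two_pow
    rw [h4]
    nlinarith
  · simp [tl]

end Pool.Agent.TH755.BE
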