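import Pool.Agent.W900.BC.Neg3
import Pool.Agent.TH707.EC.Code

/-!
# Coding by an adversary who controls most of the coins
-/

set_option autoImplicit false

namespace Pool.Agent.TH755.BE

open Pool.Agent.NPC Pool.Agent.H620R2.Gauge Finset MeasureTheory Filter
open Pool.Agent.W900.BC
open Pool.Agent.TH707.EC (Jobs keys mem_keys card_keys)

theorem nz_free {q : ℝ} (h1 : q ≤ 1) : nz q {p | p.1 = false} = ENNReal.ofReal (1 - q) := by
  unfold nz
  simp only [Measure.add_apply, Measure.smul_apply, smul_eq_mul]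
  rw [Measure.dirac_apply, Measure.dirac_apply, Measure.dirac_apply]
  simp [Set.indicator]
  rw [← ENNReal.ofReal_add (by linarith) (by linarith)]
  congr 1
  ring

/-- the strings in a random set are controlled -/
theorem cond_bound {q : List Bool → ℝ} (h0 : ∀ z, 0 ≤ q z) (h1 : ∀ z, q z ≤ 1)
    (F : Finset (List Bool)) (Y : Noise → Finset (List Bool))
    (hY : ∀ ρ ρ' : Noise, (∀ z ∈ F, ρ z = ρ' z) → Y ρ = Y ρ')
    (hYF : ∀ ρ, ∀ y ∈ Y ρ, y ∉ F) {b : ℝ} (hq : ∀ ρ, ∀ y ∈ Y ρ, 1 - q y ≤ b)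
    {c : ℕ} (hc : ∀ ρ, (Y ρ).card ≤ c) :
    noiseM q {ρ | ∃ y ∈ Y ρ, (ρ y).1 = false} ≤ ENNReal.ofReal (c * b) := by
  have hprob := noiseM_prob h0 h1
  have hdep : ∀ Z : Finset (List Bool), DepF F {ρ | Y ρ = Z} := by
    intro Z ρ ρ' h2 h3
    show Y ρ' = Z
    rw [← hY ρ ρ' h2]
    exact h3
  have hsub : {ρ : Noise | ∃ y ∈ Y ρ, (ρ y).1 = false} ⊆
      ⋃ Z : Finset (List Bool), ({ρ | Y ρ = Z} ∩ ⋃ y ∈ Z, {ρ | (ρ y).1 = false}) := by
    rintro ρ ⟨y, hy, h2⟩
    refine Set.mem_iUnion.2 ⟨Y ρ, rfl, Set.mem_iUnion₂.2 ⟨y, hy, h2⟩⟩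
  have hone : ∀ Z : Finset (List Bool),
      noiseM q ({ρ | Y ρ = Z} ∩ ⋃ y ∈ Z, {ρ | (ρ y).1 = false}) ≤
        noiseM q {ρ | Y ρ = Z} * ENNReal.ofReal (c * b) := by
    intro Z
    by_cases hZ : ∃ ρ, Y ρ = Z
    · obtain ⟨ρ₀, hρ₀⟩ := hZ
      rw [Set.inter_iUnion₂]
      refine (measure_biUnion_finset_le _ _).trans ?_
      have h2 : ∀ y ∈ Z, noiseM q ({ρ | Y ρ = Z} ∩ {ρ | (ρ y).1 = false}) ≤
          noiseM q {ρ | Y ρ = Z} * ENNReal.ofReal b := by
        intro y hy
        rw [← hρ₀] at hy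
        have h3 := noise_indep h0 h1 (hdep Z) (hYF ρ₀ y hy) {p | p.1 = false}
        have h4 : ({ρ | Y ρ = Z} ∩ {ρ : Noise | (ρ y).1 = false}) =
            {ρ | Y ρ = Z} ∩ {ρ | ρ y ∈ {p : Bool × Bool | p.1 = false}} := rfl
        rw [h4, h3, nz_free (h1 y)]
        exact mul_le_mul_right (ENNReal.ofReal_le_ofReal (hq ρ₀ y hy)) _
      refine (Finset.sum_le_sum h2).trans ?_
      rw [Finset.sum_const, nsmul_eq_mul, ENNReal.ofReal_mul (Nat.cast_nonneg c),
        ENNReal.ofReal_natCast, mul_left_comm]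
      refine mul_le_mul_right (mul_le_mul_left ?_ _) _
      have := hc ρ₀
      rw [hρ₀] at this
      exact_mod_cast this
    · have h2 : {ρ | Y ρ = Z} = ∅ := by
        ext ρ
        simp only [Set.mem_ofPred_eq, Set.mem_empty_iff_false, iff_false]
        exact fun h => hZ ⟨ρ, h⟩
      rw [h2]
      simp
  have hsum : ∑' Z : Finset (List Bool), noiseM q {ρ | Y ρ = Z} ≤ 1 := by
    rw [← measure_iUnion]
    · exact prob_le_one
    · intro Z Z' hne
      rw [Function.onFun, Set.disjoint_left]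
      intro ρ h2 h3
      exact hne (Eq.trans (Eq.symm h2) h3)
    · intro Z
      exact (hdep Z).measurable
  refine (measure_mono hsub).trans ((measure_iUnion_le _).trans
    ((ENNReal.tsum_le_tsum hone).trans ?_))
  rw [ENNReal.tsum_mul_right]
  calc (∑' Z : Finset (List Bool), noiseM q {ρ | Y ρ = Z}) * ENNReal.ofReal (c * b)
      ≤ 1 * ENNReal.ofReal (c * b) := mul_le_mul_left hsum _
    _ = _ := one_mul _

/-- the oracle, cut off -/
def tr (l : ℕ) (A : Oracle) : Oracle := fun y => if y.length < l then A y else false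

theorem tr_congr {l : ℕ} {A A' : Oracle} (h : ∀ y : List Bool, y.length < l → A y = A' y) :
    tr l A = tr l A' := by
  funext y
  unfold tr
  split_ifs with h1
  · exact h y h1
  · rfl

/-- Jobs for the adversary. -/
structure BJ : Type where
  /-- the numbers -/
  J : Jobs
  /-- the questions -/
  Q : ℕ → ℕ → List Bool → Oracle → Prop
  /-- the strings on which the answers depend -/
  U : ℕ → Oracle → Finset (List Bool)
  /-- their number -/
  u : ℕ → ℕ
  /-- their length -/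
  W : ℕ → ℕ
  /-- there are few of them -/
  card_U : ∀ t A, (U t A).card ≤ u t
  /-- they are short -/
  len_U : ∀ t A, ∀ y ∈ U t A, y.length ≤ W t
  /-- the answers depend on them only -/
  loc : ∀ (t : ℕ) (A A' : Oracle), (∀ y ∈ U t A, A' y = A y) →
    ∀ e < J.M t, ∀ x : List Bool, x.length = J.r t → (Q t e x A' ↔ Q t e x A)
  /-- there are enough keys -/
  key : ∀ t, ∑ s ∈ (range (J.ℓ t + 1)).filter (fun s => J.ℓ s ≤ J.ℓ t), u s < 2 ^ J.k t
  /-- the bound for the lengths -/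
  le_W : ∀ t, J.ℓ t ≤ W t

variable (X : BJ)

open Classical in
/-- the strings which are not touched by the code strings of job `t` -/
noncomputable def BJ.fz (t : ℕ) (A : Oracle) : Finset (List Bool) :=
  ((range (X.J.ℓ t + 1)).filter (fun s => X.J.ℓ s ≤ X.J.ℓ t)).biUnion
    fun s => X.U s (tr (X.J.ℓ s) A)

theorem BJ.card_fz (t : ℕ) (A : Oracle) : (X.fz t A).card < 2 ^ X.J.k t := by
  classical
  refine lt_of_le_of_lt ?_ (X.key t)
  unfold BJ.fz
  exact card_biUnion_le.trans (sum_le_sum fun s _ => X.card_U s _)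

/-- the key of job `t` -/
noncomputable def BJ.kw (t : ℕ) (A : Oracle) : List Bool :=
  (X.J.exists_key t (X.fz t A) (X.card_fz t A)).choose

theorem BJ.kw_len (t : ℕ) (A : Oracle) : (X.kw t A).length = X.J.k t :=
  (X.J.exists_key t (X.fz t A) (X.card_fz t A)).choose_spec.1

theorem BJ.kw_spec (t : ℕ) (A : Oracle) : ∀ e < X.J.M t, ∀ x : List Bool, x.length = X.J.r t →
    X.J.cd t (X.kw t A) e x ∉ X.fz t A :=
  (X.J.exists_key t (X.fz t A) (X.card_fz t A)).choose_spec.2

theorem BJ.fz_congr {t : ℕ} {A A' : Oracle}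
    (h : ∀ y : List Bool, y.length < X.J.ℓ t → A y = A' y) : X.fz t A = X.fz t A' := by
  classical
  unfold BJ.fz
  refine biUnion_congr rfl fun s hs => ?_
  rw [tr_congr (l := X.J.ℓ s) fun y hy => h y (lt_of_lt_of_le hy (mem_filter.1 hs).2)]

theorem BJ.kw_congr {t : ℕ} {A A' : Oracle}
    (h : ∀ y : List Bool, y.length < X.J.ℓ t → A y = A' y) : X.kw t A = X.kw t A' := by
  have key : ∀ (F F' : Finset (List Bool)) (_ : F = F') (hF : F.card < 2 ^ X.J.k t)
      (hF' : F'.card < 2 ^ X.J.k t),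
      (X.J.exists_key t F hF).choose = (X.J.exists_key t F' hF').choose := by
    rintro F _ rfl _ _
    rfl
  exact key _ _ (X.fz_congr h) (X.card_fz t A) (X.card_fz t A')

/-- the code strings at which the adversary wants a one -/
def BJ.Wish (z : List Bool) (A : Oracle) : Prop :=
  ∃ t, ∃ e < X.J.M t, ∃ x : List Bool, x.length = X.J.r t ∧ z = X.J.cd t (X.kw t A) e x ∧
    X.Q t e x (tr (X.J.ℓ t) A)

theorem BJ.wish_congr {z : List Bool} {A A' : Oracle}
    (h : ∀ y : List Bool, y.length < z.length → A y = A' y) (hz : X.Wish z A) : X.Wish z A' := by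
  obtain ⟨t, e, he, x, hx, h1, h2⟩ := hz
  have h3 : z.length = X.J.ℓ t := by
    rw [h1]
    exact X.J.length_cd (X.kw_len t A) he hx
  rw [h3] at h
  refine ⟨t, e, he, x, hx, ?_, ?_⟩
  · rw [← X.kw_congr h]
    exact h1
  · rw [← tr_congr h]
    exact h2

open Classical in
/-- the strategy -/
noncomputable def BJ.adv (z : List Bool) (A : Oracle) : Bool := decide (X.Wish z A)

theorem BJ.adv_loc : Loc X.adv := by
  intro z A A' h
  unfold BJ.adv
  have h1 : X.Wish z A ↔ X.Wish z A' :=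
    ⟨X.wish_congr h, X.wish_congr fun y hy => (h y hy).symm⟩
  exact decide_eq_decide.2 h1

open Classical in
/-- the strings that should be controlled -/
noncomputable def BJ.Y (t : ℕ) (A : Oracle) : Finset (List Bool) :=
  ((X.U t (tr (X.J.ℓ t) A)).filter fun y => X.J.ℓ t ≤ y.length) ∪
    (range (X.J.M t) ×ˢ keys (X.J.r t)).image fun p => X.J.cd t (X.kw t A) p.1 p.2

theorem BJ.Y_congr {t : ℕ} {A A' : Oracle}
    (h : ∀ y : List Bool, y.length < X.J.ℓ t → A y = A' y) : X.Y t A = X.Y t A' := by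
  unfold BJ.Y
  rw [X.kw_congr h, tr_congr h]

theorem BJ.card_Y (t : ℕ) (A : Oracle) :
    (X.Y t A).card ≤ X.u t + X.J.M t * 2 ^ X.J.r t := by
  classical
  unfold BJ.Y
  refine (card_union_le _ _).trans (Nat.add_le_add ?_ ?_)
  · exact (card_le_card (filter_subset _ _)).trans (X.card_U t _)
  · refine card_image_le.trans (le_of_eq ?_)
    rw [card_product, card_range, card_keys]

theorem BJ.mem_Y_len {t : ℕ} {A : Oracle} {y : List Bool} (hy : y ∈ X.Y t A) :
    X.J.ℓ t ≤ y.length ∧ y.length ≤ X.W t := by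
  classical
  unfold BJ.Y at hy
  rw [mem_union, mem_filter, mem_image] at hy
  rcases hy with ⟨h1, h2⟩ | ⟨⟨e, x⟩, h1, h2⟩
  · exact ⟨h2, X.len_U t _ y h1⟩
  · rw [mem_product, mem_range, mem_keys] at h1
    have h3 := X.J.length_cd (X.kw_len t A) h1.1 h1.2
    simp only at h2
    rw [← h2, h3]
    exact ⟨le_rfl, X.le_W t⟩

/-- the coding is correct if the adversary controls the right strings -/
theorem BJ.correct {ρ : Noise} {t : ℕ} (h : ∀ y ∈ X.Y t (Psi X.adv ρ), (ρ y).1 = true) :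
    ∀ e < X.J.M t, ∀ x : List Bool, x.length = X.J.r t →
      (Psi X.adv ρ (X.J.cd t (X.kw t (Psi X.adv ρ)) e x) = true ↔ X.Q t e x (Psi X.adv ρ)) := by
  classical
  set A := Psi X.adv ρ with hA
  have hval : ∀ y ∈ X.Y t A, A y = X.adv y A := by
    intro y hy
    rw [hA, Psi_eq X.adv_loc, ← hA]
    unfold vl
    rw [if_pos (h y hy)]
  intro e he x hx
  have h1 : X.Q t e x A ↔ X.Q t e x (tr (X.J.ℓ t) A) := by
    refine X.loc t (tr (X.J.ℓ t) A) A (fun y hy => ?_) e he x hx
    by_cases hlen : y.length < X.J.ℓ t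
    · unfold tr
      rw [if_pos hlen]
    · have h2 : tr (X.J.ℓ t) A y = false := by
        unfold tr
        rw [if_neg hlen]
      rw [h2, hval y (by
        unfold BJ.Y
        rw [mem_union, mem_filter]
        exact Or.inl ⟨hy, not_lt.1 hlen⟩)]
      unfold BJ.adv
      rw [decide_eq_false_iff_not]
      rintro ⟨s, e', he', x', hx', h3, -⟩
      have h4 := X.J.length_cd (X.kw_len s A) he' hx'
      rw [← h3] at h4
      refine X.kw_spec s A e' he' x' hx' ?_
      rw [← h3]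
      unfold BJ.fz
      rw [mem_biUnion]
      refine ⟨t, ?_, hy⟩
      rw [mem_filter, mem_range]
      have h5 := X.J.le t
      omega
  have h2 : X.J.cd t (X.kw t A) e x ∈ X.Y t A := by
    unfold BJ.Y
    rw [mem_union, mem_image]
    exact Or.inr ⟨(e, x), mem_product.2 ⟨mem_range.2 he, mem_keys.2 hx⟩, rfl⟩
  rw [hval _ h2, h1]
  unfold BJ.adv
  rw [decide_eq_true_iff]
  constructor
  · rintro ⟨s, e', he', x', hx', h3, h4⟩
    obtain ⟨rfl, -, rfl, rfl⟩ := X.J.cd_inj (X.kw_len t A) (X.kw_len s A) hx hx' h3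
    exact h4
  · intro h3
    exact ⟨t, e, he, x, hx, rfl, h3⟩

/-- the strings of length less than `l` -/
theorem mem_firsts_len {l : ℕ} {z : List Bool} : z ∈ firsts (2 ^ l - 1) ↔ z.length < l := by
  rw [mem_firsts]
  have h1 := le_idx z
  have h2 := idx_lt z
  constructor
  · intro h
    by_contra hc
    have : 2 ^ l ≤ 2 ^ z.length := Nat.pow_le_pow_right (by norm_num) (not_lt.1 hc)
    omega
  · intro h
    have : 2 ^ (z.length + 1) ≤ 2 ^ l := Nat.pow_le_pow_right (by norm_num) h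
    omega

/-- the oracles for which job `t` fails -/
def BJ.bad (t : ℕ) : Set Oracle :=
  {A | ¬ ∀ e < X.J.M t, ∀ x : List Bool, x.length = X.J.r t →
    (A (X.J.cd t (X.kw t A) e x) = true ↔ X.Q t e x A)}

theorem BJ.bad_meas (t : ℕ) : MeasurableSet (X.bad t) := by
  apply Dep.measurable (N := 2 ^ (X.W t + 1))
  intro A B hAB hA
  have hz : ∀ z : List Bool, z.length ≤ X.W t → A z = B z := by
    intro z hz
    have h2 := idx_lt z
    have h3 : 2 ^ (z.length + 1) ≤ 2 ^ (X.W t + 1) :=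
      Nat.pow_le_pow_right (by norm_num) (by omega)
    have h4 := congrFun hAB ⟨idx z, by omega⟩
    unfold pre at h4
    simp only [str_idx] at h4
    exact h4
  intro hB
  apply hA
  intro e he x hx
  have h1 : X.kw t A = X.kw t B :=
    X.kw_congr fun y hy => hz y (hy.le.trans (X.le_W t))
  have h2 : X.Q t e x A ↔ X.Q t e x B :=
    X.loc t B A (fun y hy => hz y (X.len_U t B y hy)) e he x hx
  rw [h1, h2, ← hB e he x hx, hz _ (by
    rw [X.J.length_cd (X.kw_len t B) he hx]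
    exact X.le_W t)]

/-- The coding theorem. -/
theorem BJ.coded {ε : ℕ → ℝ} (hε : ∀ n, 0 ≤ ε n) {b : ℕ → ℝ} (hb0 : ∀ t, 0 ≤ b t)
    (hb : ∀ t m, X.J.ℓ t ≤ m → m ≤ X.W t → 1 - 2 * ε m ≤ b t)
    (hsum : Summable fun t => ((X.u t + X.J.M t * 2 ^ X.J.r t : ℕ) : ℝ) * b t) :
    ∃ μ : Measure Oracle, IsProbabilityMeasure μ ∧ Biased ε μ ∧
      ∀ᵐ A ∂μ, ∀ᶠ t in atTop, ∀ e < X.J.M t, ∃ (v : List Bool) (c : ℕ),
        v.length + X.J.r t + c = X.J.ℓ t ∧ ∀ x : List Bool, x.length = X.J.r t →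
          (A (v ++ x ++ List.replicate c false) = true ↔ X.Q t e x A) := by
  set q : List Bool → ℝ := fun z => min 1 (2 * ε z.length) with hq
  have h0 : ∀ z, 0 ≤ q z := fun z => le_min zero_le_one (by have := hε z.length; linarith)
  have h1 : ∀ z, q z ≤ 1 := fun z => min_le_left _ _
  have hqε : ∀ z, q z / 2 ≤ ε z.length := by
    intro z
    have : q z ≤ 2 * ε z.length := min_le_right _ _
    linarith
  have hloc := X.adv_loc
  have hprob := noiseM_prob h0 h1
  refine ⟨(noiseM q).map (Psi X.adv), Measure.isProbabilityMeasure_map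
    (measurable_Psi hloc).aemeasurable, biased_Psi h0 h1 hloc hqε, ?_⟩
  set μ := (noiseM q).map (Psi X.adv) with hμ
  have hbad : ∀ t, μ (X.bad t) ≤
      ENNReal.ofReal (((X.u t + X.J.M t * 2 ^ X.J.r t : ℕ) : ℝ) * b t) := by
    intro t
    rw [hμ, Measure.map_apply (measurable_Psi hloc) (X.bad_meas t)]
    have hsub : Psi X.adv ⁻¹' X.bad t ⊆
        {ρ | ∃ y ∈ X.Y t (Psi X.adv ρ), (ρ y).1 = false} := by
      intro ρ hρ
      by_contra hc
      refine hρ (X.correct fun y hy => ?_)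
      by_contra h2
      exact hc ⟨y, hy, Bool.eq_false_iff.2 h2⟩
    refine (measure_mono hsub).trans ?_
    have hagree : ∀ ρ ρ' : Noise, (∀ z ∈ firsts (2 ^ X.J.ℓ t - 1), ρ z = ρ' z) →
        ∀ y : List Bool, y.length < X.J.ℓ t → Psi X.adv ρ y = Psi X.adv ρ' y :=
      fun ρ ρ' h2 y hy => Psi_dep_firsts hloc h2 (mem_firsts_len.2 hy)
    refine cond_bound h0 h1 (firsts (2 ^ X.J.ℓ t - 1)) (fun ρ => X.Y t (Psi X.adv ρ))
      (fun ρ ρ' h2 => X.Y_congr (hagree ρ ρ' h2)) (fun ρ y hy => ?_)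
      (fun ρ y hy => ?_) (fun ρ => X.card_Y t _)
    · rw [mem_firsts_len, not_lt]
      exact (X.mem_Y_len hy).1
    · have h2 := X.mem_Y_len hy
      have h3 := hb t y.length h2.1 h2.2
      rw [hq]
      dsimp only
      rcases min_cases 1 (2 * ε y.length) with h4 | h4
      · rw [h4.1]
        have := hb0 t
        linarith
      · rw [h4.1]
        exact h3
  have hae := ae_finite_setOfPred_mem (μ := μ) (s := X.bad)
    (ne_top_of_le_ne_top hsum.tsum_ofReal_ne_top (ENNReal.tsum_le_tsum hbad))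
  filter_upwards [hae] with A hA
  have h2 : ∀ᶠ t in atTop, t ∉ {t | A ∈ X.bad t} := by
    rw [← Nat.cofinite_eq_atTop]
    exact hA.eventually_cofinite_notMem
  filter_upwards [h2] with t ht e he
  have h3 : ∀ e < X.J.M t, ∀ x : List Bool, x.length = X.J.r t →
      (A (X.J.cd t (X.kw t A) e x) = true ↔ X.Q t e x A) := by
    by_contra hc
    exact ht hc
  refine ⟨X.J.pfx t (X.kw t A) e, X.J.pad t e, ?_, fun x hx => h3 e he x hx⟩
  rw [X.J.length_pfx t _ (X.kw_len t A)]
  have h4 := X.J.len t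
  unfold Jobs.pad
  omega

end Pool.Agent.TH755.BE
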