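import Pool.Agent.TH755.BE.NegA
import Pool.Agent.TH707.EC.FamE
import Pool.Agent.TH707.EC.EasyE

/-!
# The parameters of the jobs
-/

set_option autoImplicit false

namespace Pool.Agent.TH755.BE

open Pool.Agent.NPC Pool.Agent.H620R2.Gauge Finset MeasureTheory Filter
open Pool.Agent.W900.BC
open Pool.Agent.TH707.EC (Jobs keys mem_keys card_keys poly_le_two_pow poly_le_two_pow_div
  tendsto_div eval_mono')

/-- the next action has polynomially bounded length -/
theorem next_length (M : Alg) : ∃ b : Polynomial ℕ, ∀ x a : List Bool,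
    (M.D (pairBits x a)).length ≤ b.eval (x.length + a.length) := by
  obtain ⟨q, hq⟩ := (Pool.Agent.H622R2.poly_of_polyTime M.poly).sz_le
  refine ⟨q.comp (Polynomial.C 8 * Polynomial.X + Polynomial.C 5), fun x a => ?_⟩
  have h1 := length_lt_sz (M.D (pairBits x a))
  refine h1.le.trans ((hq _).trans ?_)
  rw [Polynomial.eval_comp]
  apply eval_mono
  have h2 := sz_listBool_le (pairBits x a)
  rw [Pool.Agent.H620R2.Gauge.length_pairBits] at h2
  simp only [Polynomial.eval_add, Polynomial.eval_mul, Polynomial.eval_C, Polynomial.eval_X]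
  omega

/-- a run asks few short questions -/
theorem run_short (M : Alg) : ∃ b : Polynomial ℕ, ∀ (A : Oracle) (x : List Bool) (R : ℕ),
    ∃ U : Finset (List Bool), U.card ≤ R ∧ (∀ y ∈ U, y.length ≤ b.eval (x.length + R)) ∧
      ∀ A' : Oracle, (∀ y ∈ U, A' y = A y) → M.run A' x R [] = M.run A x R [] := by
  classical
  obtain ⟨b, hb⟩ := next_length M
  refine ⟨b, fun A x R => ?_⟩
  have key : ∀ (n : ℕ) (a : List Bool), a.length + n ≤ R →
      ∃ Q : Finset (List Bool), Q.card ≤ n ∧ (∀ q ∈ Q, q.length ≤ b.eval (x.length + R)) ∧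
        ∀ A' : Oracle, (∀ q ∈ Q, A' q = A q) → M.run A' x n a = M.run A x n a := by
    intro n
    induction n with
    | zero =>
      intro a _
      exact ⟨∅, by simp, by simp, fun A' _ => rfl⟩
    | succ n ih =>
      intro a ha
      have hD := hb x a
      have hD2 : b.eval (x.length + a.length) ≤ b.eval (x.length + R) :=
        eval_mono' b (by omega)
      rcases hq : M.D (pairBits x a) with _ | ⟨c, q⟩
      · exact ⟨∅, by simp, by simp, fun A' _ => by simp only [Alg.run, hq]⟩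
      · cases c with
        | true => exact ⟨∅, by simp, by simp, fun A' _ => by simp only [Alg.run, hq]⟩
        | false =>
          obtain ⟨Q, h1, h2, h3⟩ := ih (a ++ [A q]) (by
            rw [List.length_append, List.length_singleton]; omega)
          refine ⟨insert q Q, (Finset.card_insert_le _ _).trans (by omega), ?_, ?_⟩
          · intro r hr
            rcases Finset.mem_insert.1 hr with rfl | hr
            · rw [hq, List.length_cons] at hD
              omega
            · exact h2 r hr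
          · intro A' hA'
            simp only [Alg.run, hq]
            rw [hA' q (Finset.mem_insert_self _ _)]
            exact h3 A' fun r hr => hA' r (Finset.mem_insert_of_mem hr)
  exact key _ [] (by simp)

/-- the bound for the length of the questions -/
noncomputable def bl (M : Alg) : Polynomial ℕ := (run_short M).choose

theorem bl_spec (M : Alg) : ∀ (A : Oracle) (x : List Bool) (R : ℕ),
    ∃ U : Finset (List Bool), U.card ≤ R ∧ (∀ y ∈ U, y.length ≤ (bl M).eval (x.length + R)) ∧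
      ∀ A' : Oracle, (∀ y ∈ U, A' y = A y) → M.run A' x R [] = M.run A x R [] :=
  (run_short M).choose_spec

/-- the set of the questions -/
noncomputable def qs (M : Alg) (A : Oracle) (x : List Bool) (R : ℕ) : Finset (List Bool) :=
  (bl_spec M A x R).choose

theorem qs_spec (M : Alg) (A : Oracle) (x : List Bool) (R : ℕ) :
    (qs M A x R).card ≤ R ∧ (∀ y ∈ qs M A x R, y.length ≤ (bl M).eval (x.length + R)) ∧
      ∀ A' : Oracle, (∀ y ∈ qs M A x R, A' y = A y) → M.run A' x R [] = M.run A x R [] :=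
  (bl_spec M A x R).choose_spec

variable (g : ℕ → Alg × ℕ)

/-- the number of rounds -/
def rd (e n : ℕ) : ℕ := 2 ^ ((g e).2 * (n + 1))

/-- the number of the strings on which the answers depend -/
def uu (E n : ℕ) : ℕ := ∑ e ∈ range E, 2 ^ n * rd g e n

/-- the length of the code strings -/
def ll (E n : ℕ) : ℕ := 2 ^ (n / E) - 2

/-- the bound for the lengths -/
noncomputable def WW (E n : ℕ) : ℕ :=
  ll E n + ∑ e ∈ range E, (bl (g e).1).eval (n + rd g e n)

/-- a polynomial bound -/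
noncomputable def PP (E : ℕ) : Polynomial ℕ :=
  ∑ e ∈ range E, (Polynomial.X * (Polynomial.C (2 ^ (g e).2) * Polynomial.X ^ (g e).2) +
    (bl (g e).1).comp (Polynomial.X + Polynomial.C (2 ^ (g e).2) * Polynomial.X ^ (g e).2)) +
    Polynomial.C E * Polynomial.X + Polynomial.X

theorem rd_eq (e n : ℕ) : rd g e n = 2 ^ (g e).2 * (2 ^ n) ^ (g e).2 := by
  unfold rd
  rw [mul_add, mul_one, pow_add, ← pow_mul, mul_comm n, mul_comm]

theorem le_PP (E n : ℕ) : uu g E n + E * 2 ^ n ≤ (PP g E).eval (2 ^ n) ∧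
    WW g E n ≤ (PP g E).eval (2 ^ n) := by
  have h0 : (PP g E).eval (2 ^ n) = (uu g E n + ∑ e ∈ range E,
      (bl (g e).1).eval (2 ^ n + rd g e n)) + E * 2 ^ n + 2 ^ n := by
    unfold PP uu
    simp only [Polynomial.eval_add, Polynomial.eval_mul, Polynomial.eval_C, Polynomial.eval_X,
      Polynomial.eval_finsetSum, Polynomial.eval_pow, Polynomial.eval_comp, rd_eq]
    rw [sum_add_distrib]
  have h1 : ∑ e ∈ range E, (bl (g e).1).eval (n + rd g e n) ≤
      ∑ e ∈ range E, (bl (g e).1).eval (2 ^ n + rd g e n) := by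
    refine sum_le_sum fun e _ => eval_mono' _ ?_
    have : n ≤ 2 ^ n := Nat.lt_two_pow_self.le
    omega
  have h2 : ll E n ≤ 2 ^ n := by
    unfold ll
    exact (Nat.sub_le _ _).trans
      (Nat.pow_le_pow_right (by norm_num) (Nat.div_le_self _ _))
  rw [h0]
  unfold WW
  constructor
  · omega
  · omega

/-- polynomials are small -/
theorem poly_le (P : Polynomial ℕ) : ∃ d : ℕ, ∀ᶠ n : ℕ in atTop, P.eval (2 ^ n) ≤ 2 ^ (n * d) := by
  refine ⟨P.natDegree + 1, ?_⟩
  filter_upwards [eventually_ge_atTop (P.eval 1)] with n hn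
  have h1 : P.eval (2 ^ n) ≤ P.eval 1 * (2 ^ n) ^ P.natDegree := by
    rw [Polynomial.eval_eq_sum_range, Polynomial.eval_eq_sum_range, sum_mul]
    refine sum_le_sum fun i hi => ?_
    rw [one_pow, mul_one]
    refine Nat.mul_le_mul_left _ (Nat.pow_le_pow_right Nat.one_le_two_pow ?_)
    exact Nat.lt_succ_iff.1 (mem_range.1 hi)
  have h2 : P.eval 1 ≤ 2 ^ n := hn.trans Nat.lt_two_pow_self.le
  refine h1.trans ((Nat.mul_le_mul_right _ h2).trans (le_of_eq ?_))
  rw [pow_mul, pow_succ]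
  ring

/-- the scale is possible -/
structure Cheap (E n K : ℕ) : Prop where
  len : 2 * (Nat.bits n).length + 1 + ll E n / 2 + E + 1 + n ≤ ll E n
  le : n ≤ ll E n
  big : ll E n + 1 < 2 ^ (ll E n / 4)
  uu : uu g E n ≤ 2 ^ (ll E n / 4)
  cost : BE.uu g E n + E * 2 ^ n ≤ (ll E n) ^ K
  WW : WW g E n ≤ (ll E n) ^ K

theorem big_of {l : ℕ} (hl : 20 ≤ l) : l + 1 < 2 ^ (l / 4) := by
  have h1 : ∀ j, 5 ≤ j → 4 * j + 4 < 2 ^ j := by
    intro j hj
    induction j, hj using Nat.le_induction with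
    | base => norm_num
    | succ j hj ih =>
      rw [pow_succ]
      omega
  have := h1 (l / 4) (by omega)
  omega

theorem cheap {E : ℕ} (hE : 1 ≤ E) : ∃ K : ℕ, ∀ᶠ n : ℕ in atTop, Cheap g E n K := by
  obtain ⟨d, hd⟩ := poly_le (PP g E)
  refine ⟨4 * E * d, ?_⟩
  have h1 := poly_le_two_pow_div (Polynomial.C (6 + 4 * d) * Polynomial.X +
    Polynomial.C (2 * E + 24)) hE
  filter_upwards [hd, h1, (tendsto_div hE).eventually (eventually_ge_atTop 2)] with n h2 h3 h4
  simp only [Polynomial.eval_add, Polynomial.eval_mul, Polynomial.eval_C,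
    Polynomial.eval_X] at h3
  have h5 : (6 + 4 * d) * n + (2 * E + 24) ≤ ll E n := by
    unfold ll
    omega
  have h6 : (6 + 4 * d) * n = 6 * n + 4 * (n * d) := by ring
  rw [h6] at h5
  have hbits : (Nat.bits n).length ≤ n := by
    rw [Nat.size_eq_bits_len]
    exact Nat.size_le.2 Nat.lt_two_pow_self
  have h7 : 2 ^ (n * d) ≤ (ll E n) ^ (4 * E * d) := by
    have h8 : 2 ^ (n / E - 1) ≤ ll E n := by
      unfold ll
      obtain ⟨i, hi⟩ : ∃ i, n / E = i + 2 := ⟨n / E - 2, by omega⟩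
      rw [hi]
      have e1 : 2 ^ (i + 2 - 1) = 2 * 2 ^ i := by
        rw [show i + 2 - 1 = i + 1 by omega, pow_succ]
        ring
      have e2 : 2 ^ (i + 2) = 4 * 2 ^ i := by rw [pow_add]; ring
      have e3 : 1 ≤ 2 ^ i := Nat.one_le_two_pow
      omega
    refine le_trans ?_ (Nat.pow_le_pow_left h8 _)
    rw [← pow_mul]
    refine Nat.pow_le_pow_right (by norm_num) ?_
    have h9 : n < E * (n / E + 1) := Nat.lt_mul_div_succ n (by omega)
    have h10 : n ≤ (n / E - 1) * (4 * E) := by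
      obtain ⟨i, hi⟩ : ∃ i, n / E = i + 2 := ⟨n / E - 2, by omega⟩
      rw [hi] at h9 ⊢
      have e1 : i + 2 - 1 = i + 1 := by omega
      rw [e1]
      nlinarith [Nat.zero_le (E * i)]
    calc n * d ≤ (n / E - 1) * (4 * E) * d := Nat.mul_le_mul_right d h10
      _ = _ := by ring
  have h8 := le_PP g E n
  refine ⟨?_, ?_, ?_, ?_, ?_, ?_⟩
  · omega
  · omega
  · exact big_of (by omega)
  · refine ((Nat.le_add_right _ _).trans (h8.1.trans h2)).trans
      (Nat.pow_le_pow_right (by norm_num) ?_)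
    omega
  · exact h8.1.trans (h2.trans h7)
  · exact h8.2.trans (h2.trans h7)

/-- the scale is good for the adversary -/
def Gd (ε : ℕ → ℝ) (E n : ℕ) : Prop := ∃ K : ℕ, Cheap g E n K ∧
  ∀ m, ll E n ≤ m → m ≤ (ll E n) ^ K → 1 / 2 - ε m ≤ 1 / (ll E n : ℝ) ^ (K + 2)

theorem goodA {ε : ℕ → ℝ} (h : ∀ K : ℕ, ∃ᶠ l : ℕ in atTop, ∀ m, l ≤ m → m ≤ l ^ K →
    1 / 2 - ε m < 1 / (l : ℝ) ^ K) {E : ℕ} (hE : 1 ≤ E) : ∃ᶠ n : ℕ in atTop, Gd g ε E n := by
  obtain ⟨K, hK⟩ := cheap g hE
  have ht : Tendsto (fun l : ℕ => E * (Nat.log 2 (l + 1) + 1)) atTop atTop := by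
    refine tendsto_atTop.2 fun b => ?_
    filter_upwards [eventually_ge_atTop (2 ^ b)] with m hm
    have h1 : b ≤ Nat.log 2 (m + 1) := Nat.le_log_of_pow_le (by norm_num) (by omega)
    nlinarith
  refine ht.frequently ?_
  refine ((h (2 * K + 4)).and_eventually ((ht.eventually hK).and
    (eventually_ge_atTop 2))).mono ?_
  rintro l ⟨h1, h2, h3⟩
  set n := E * (Nat.log 2 (l + 1) + 1) with hn
  have hl : l ≤ ll E n ∧ ll E n ≤ 2 * l := by
    unfold ll
    rw [hn, Nat.mul_div_cancel_left _ (by omega)]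
    have h4 : l + 1 < 2 ^ (Nat.log 2 (l + 1) + 1) := Nat.lt_pow_succ_log_self (by norm_num) _
    have h5 : 2 ^ Nat.log 2 (l + 1) ≤ l + 1 := Nat.pow_log_le_self 2 (by omega)
    rw [pow_succ] at h4 ⊢
    omega
  have hl2 : ll E n ≤ l ^ 2 := by nlinarith [hl.2]
  refine ⟨K, h2, fun m h4 h5 => ?_⟩
  have h6 : m ≤ l ^ (2 * K + 4) := by
    refine h5.trans ((Nat.pow_le_pow_left hl2 K).trans ?_)
    rw [← pow_mul]
    exact Nat.pow_le_pow_right (by omega) (by omega)
  refine (h1 m (hl.1.trans h4) h6).le.trans ?_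
  have hl0 : (0 : ℝ) < l := by
    have : 0 < l := by omega
    exact_mod_cast this
  have hll0 : (0 : ℝ) < (ll E n : ℝ) := lt_of_lt_of_le hl0 (by exact_mod_cast hl.1)
  refine one_div_le_one_div_of_le (by positivity) ?_
  have h7 : (ll E n : ℝ) ≤ (l : ℝ) ^ 2 := by exact_mod_cast hl2
  refine (pow_le_pow_left₀ hll0.le h7 (K + 2)).trans (le_of_eq ?_)
  rw [← pow_mul]
  congr 1

theorem goodB {ε : ℕ → ℝ} (h : ∀ K : ℕ, ∀ᶠ m : ℕ in atTop, 1 / 2 - ε m < 1 / (m : ℝ) ^ K)
    {E : ℕ} (hE : 1 ≤ E) : ∀ᶠ n : ℕ in atTop, Gd g ε E n := by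
  obtain ⟨K, hK⟩ := cheap g hE
  obtain ⟨m₀, hm₀⟩ := eventually_atTop.1 (h (K + 2))
  filter_upwards [hK, eventually_ge_atTop (m₀ + 1)] with n h1 h2
  refine ⟨K, h1, fun m h3 _ => ?_⟩
  have h4 := h1.le
  refine (hm₀ m (by omega)).le.trans ?_
  have h5 : (0 : ℝ) < (ll E n : ℝ) := by
    have : 0 < ll E n := by omega
    exact_mod_cast this
  refine one_div_le_one_div_of_le (by positivity) ?_
  exact pow_le_pow_left₀ h5.le (by exact_mod_cast h3) _

end Pool.Agent.TH755.BE
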