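import Pool.Agent.TH755.BE.Chain
import Pool.Agent.TH755.BE.Lang

/-!
# The test language needs large circuits
-/

set_option autoImplicit false

namespace Pool.Agent.TH755.BE

open Pool.Agent.NPC Pool.Agent.H620R2.Gauge Finset MeasureTheory Filter
open Pool.Agent.H622R2.Exp (InTime Lin Pol)
open Pool.Agent.H622R2.Ckt
open Pool.Agent.W900.BC
open Pool.Agent.TH755.CL (exists_str)
open Pool.Agent.TH707.EC (keys mem_keys card_keys poly_le_two_pow_div)

/-- the test language has a circuit of size at most `s` for the inputs of length `2 n + r` -/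
def bad (n r s : ℕ) : Set Oracle :=
  {A | ∃ C : Circuit, C.size ≤ s ∧ ∀ x : List Bool, x.length = 2 * n + r →
    (x ∈ tl A ↔ C.eval A x = true)}

theorem one_circuit {ε : ℕ → ℝ} {μ : Measure Oracle} [IsProbabilityMeasure μ] (h : Biased ε μ)
    {n r m : ℕ} (hr : r ≤ 1) (hnm : 2 * n + 1 ≤ m) (hm : m < 2 ^ n) {C : Circuit}
    (hC : C.size ≤ m) :
    μ {A | ∀ x : List Bool, x.length = 2 * n + r → (x ∈ tl A ↔ C.eval A x = true)} ≤
      ENNReal.ofReal (1 / 2 + ε m) ^ (2 ^ n) := by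
  obtain ⟨w, hw1, hw2⟩ := exists_str (a := m - (2 * n + r)) (l := n + r) (by
    have : 2 ^ n ≤ 2 ^ (n + r) := Nat.pow_le_pow_right (by norm_num) (by omega)
    omega)
  set o : List Bool := List.replicate (m - (2 * n + r)) false with ho
  set P : Finset ℕ := (keys n).image fun x => idx (x ++ w ++ o) with hP
  have hlen : ∀ x ∈ keys n, (x ++ w ++ o).length = m := by
    intro x hx
    rw [List.length_append, List.length_append, ho, List.length_replicate, mem_keys.1 hx, hw1]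
    omega
  have hPc : P.card = 2 ^ n := by
    rw [hP, card_image_of_injOn, card_keys]
    intro x _ y _ he
    have h1 := congrArg str he
    simp only [str_idx] at h1
    exact List.append_cancel_right (List.append_cancel_right h1)
  have hlP : ∀ i ∈ P, (str i).length = m := by
    intro i hi
    rw [hP, mem_image] at hi
    obtain ⟨x, hx, rfl⟩ := hi
    rw [str_idx]
    exact hlen x hx
  rw [← hPc]
  refine (measure_mono ?_).trans (chain_le h P (fun i A => C.eval A ((str i).take (2 * n + r)))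
    ?_ ?_)
  · intro A hA i hi
    rw [hP, mem_image] at hi
    obtain ⟨x, hx, rfl⟩ := hi
    have hx' := mem_keys.1 hx
    have h0 : (x ++ w).length = 2 * n + r := by rw [List.length_append, hx', hw1]; omega
    have h1 := hA (x ++ w) h0
    have h2 : (x ++ w).length / 2 = x.length := by
      rw [h0, hx']
      omega
    have h3 : qz (x ++ w) = x ++ w ++ o := by
      unfold qz
      rw [h2, List.drop_left', hw2]
      rfl
    have h4 : (x ++ w ∈ tl A) = (A (x ++ w ++ o) = true) := by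
      rw [← h3]
      rfl
    rw [h4] at h1
    show A (str (idx (x ++ w ++ o))) = C.eval A ((str (idx (x ++ w ++ o))).take (2 * n + r))
    rw [str_idx, List.take_left' h0]
    exact Bool.eq_iff_iff.2 h1
  · intro i hi A B hAB
    refine eval_local C A B (fun y hy => ?_) _
    have h1 : idx y < i := by
      have h2 := idx_lt_of_length (z' := y) (z := str i) (by rw [hlP i hi]; omega)
      rwa [idx_str] at h2
    have h2 := congrFun hAB ⟨idx y, h1⟩
    unfold pre at h2
    simp only [str_idx] at h2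
    exact h2
  · intro i hi
    rw [hlP i hi]

theorem bad_le {ε : ℕ → ℝ} {μ : Measure Oracle} [IsProbabilityMeasure μ] (h : Biased ε μ)
    {n r m s : ℕ} (hr : r ≤ 1) (hnm : 2 * n + 1 ≤ m) (hm : m < 2 ^ n) (hs : s ≤ m) :
    μ (bad n r s) ≤ (nC (2 * n + 1) s : ENNReal) * ENNReal.ofReal (1 / 2 + ε m) ^ (2 ^ n) := by
  classical
  obtain ⟨F, hF1, hF2⟩ := exists_circuits (2 * n + r) s
  have hsub : bad n r s ⊆ ⋃ C ∈ F.filter (fun C => C.size ≤ s),
      {A | ∀ x : List Bool, x.length = 2 * n + r → (x ∈ tl A ↔ C.eval A x = true)} := by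
    rintro A ⟨C, hC, hA⟩
    obtain ⟨C', hC', hs', hev⟩ := hF2 C hC
    refine Set.mem_iUnion₂.2 ⟨C', mem_filter.2 ⟨hC', hs'⟩, fun x hx => ?_⟩
    rw [hA x hx, hev A x hx]
  refine (measure_mono hsub).trans ((measure_biUnion_finset_le _ _).trans ?_)
  refine (sum_le_sum fun C hC => one_circuit h hr hnm hm
    ((mem_filter.1 hC).2.trans hs)).trans ?_
  rw [sum_const, nsmul_eq_mul]
  refine mul_le_mul_left ?_ _
  have h1 : nC (2 * n + r) s ≤ nC (2 * n + 1) s := by
    unfold nC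
    exact Nat.pow_le_pow_left (by omega) _
  exact_mod_cast ((card_le_card (filter_subset _ _)).trans hF1).trans h1

theorem asy {K : ℕ} (hK : 1 ≤ K) : ∀ᶠ n : ℕ in atTop,
    (nC (2 * n + 1) (2 ^ (n / (4 * K))) : ℝ) * (1 / 2) ^ (2 ^ (n - n / 2)) ≤ (1 / 2) ^ n := by
  filter_upwards [poly_le_two_pow_div (16 * Polynomial.X + 16) (E := 4) (by norm_num)] with n hn
  simp only [Polynomial.eval_add, Polynomial.eval_mul, Polynomial.eval_X,
    Polynomial.eval_ofNat] at hn
  set s := 2 ^ (n / (4 * K)) with hs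
  set S := 2 ^ (n / 4) with hS
  have hsS : s ≤ S := Nat.pow_le_pow_right (by norm_num)
    (Nat.div_le_div_left (by omega) (by norm_num))
  have hs1 : 1 ≤ s := Nat.one_le_two_pow
  have h1 : nC (2 * n + 1) s ≤ 2 ^ (n * (4 * s + 4)) := by
    unfold nC
    rw [pow_mul]
    refine Nat.pow_le_pow_left ?_ _
    have h2 : S * S ≤ 2 ^ n := by
      rw [hS, ← pow_add]
      exact Nat.pow_le_pow_right (by norm_num) (by omega)
    nlinarith
  have h2 : n * (4 * s + 4) + n ≤ 2 ^ (n - n / 2) := by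
    have h3 : S * S ≤ 2 ^ (n - n / 2) := by
      rw [hS, ← pow_add]
      exact Nat.pow_le_pow_right (by norm_num) (by omega)
    nlinarith [Nat.mul_le_mul_left n hsS, Nat.mul_le_mul_left n hs1]
  have h3 : (nC (2 * n + 1) s : ℝ) ≤ 2 ^ (n * (4 * s + 4)) := by exact_mod_cast h1
  calc (nC (2 * n + 1) s : ℝ) * (1 / 2) ^ (2 ^ (n - n / 2))
      ≤ 2 ^ (n * (4 * s + 4)) * (1 / 2) ^ (n * (4 * s + 4) + n) := by
        refine mul_le_mul h3 ?_ (by positivity) (by positivity)
        exact pow_le_pow_of_le_one (by norm_num) (by norm_num) h2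
    _ = (1 / 2) ^ n := by
        rw [pow_add, ← mul_assoc, ← mul_pow]
        norm_num

/-- some length in the window is not controlled -/
def Hn (ε : ℕ → ℝ) (K n : ℕ) : Prop :=
  ∃ m, 2 ^ (n / (4 * K)) ≤ m ∧ 2 * n + 1 ≤ m ∧ m < 2 ^ n ∧ 1 ≤ (1 / 2 - ε m) * 2 ^ (n / 2)

theorem bad_le' {ε : ℕ → ℝ} {μ : Measure Oracle} [IsProbabilityMeasure μ] (h : Biased ε μ)
    {K n r : ℕ} (hr : r ≤ 1) (hH : Hn ε K n)
    (ha : (nC (2 * n + 1) (2 ^ (n / (4 * K))) : ℝ) * (1 / 2) ^ (2 ^ (n - n / 2)) ≤ (1 / 2) ^ n) :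
    μ (bad n r (2 ^ (n / (4 * K)))) ≤ ENNReal.ofReal ((1 / 2) ^ n) := by
  obtain ⟨m, h1, h2, h3, h4⟩ := hH
  refine (bad_le h hr h2 h3 h1).trans ?_
  have h5 : ENNReal.ofReal (1 / 2 + ε m) ^ (2 ^ n) ≤
      ENNReal.ofReal ((1 / 2) ^ (2 ^ (n - n / 2))) := by
    have h6 : 1 / 2 + ε m ≤ Real.exp (-(1 / 2 - ε m)) := by
      have := Real.one_sub_le_exp_neg (1 / 2 - ε m)
      linarith
    have h7 : ENNReal.ofReal (1 / 2 + ε m) ^ (2 ^ n) ≤
        ENNReal.ofReal (Real.exp (-(1 / 2 - ε m)) ^ (2 ^ n)) := by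
      rw [ENNReal.ofReal_pow (Real.exp_pos _).le]
      exact pow_le_pow_left' (ENNReal.ofReal_le_ofReal h6) _
    refine h7.trans (ENNReal.ofReal_le_ofReal ?_)
    rw [← Real.exp_nat_mul]
    have h8 : Real.exp (-1) ≤ 1 / 2 := by
      rw [Real.exp_neg, one_div]
      apply inv_anti₀ (by norm_num)
      have := Real.add_one_le_exp (1 : ℝ)
      linarith
    have h9 : ((2 ^ n : ℕ) : ℝ) * -(1 / 2 - ε m) ≤ ((2 ^ (n - n / 2) : ℕ) : ℝ) * (-1) := by
      have h10 : ((2 ^ n : ℕ) : ℝ) = 2 ^ (n - n / 2) * 2 ^ (n / 2) := by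
        rw [← pow_add]
        push_cast
        congr 1
        omega
      rw [h10]
      push_cast
      have h11 : (0 : ℝ) < 2 ^ (n - n / 2) := by positivity
      nlinarith
    calc Real.exp (((2 ^ n : ℕ) : ℝ) * -(1 / 2 - ε m))
        ≤ Real.exp (((2 ^ (n - n / 2) : ℕ) : ℝ) * (-1)) := Real.exp_le_exp.2 h9
      _ = Real.exp (-1) ^ (2 ^ (n - n / 2)) := Real.exp_nat_mul _ _
      _ ≤ _ := pow_le_pow_left₀ (Real.exp_pos _).le h8 _
  refine (mul_le_mul_right h5 _).trans ?_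
  rw [← ENNReal.ofReal_natCast, ← ENNReal.ofReal_mul (Nat.cast_nonneg _)]
  exact ENNReal.ofReal_le_ofReal ha

/-- the test language is hard at the good lengths -/
theorem hard_good {ε : ℕ → ℝ} {μ : Measure Oracle} [IsProbabilityMeasure μ] (h : Biased ε μ)
    {K : ℕ} (hK : 1 ≤ K) : ∀ᵐ A ∂μ, ∀ᶠ n in atTop, Hn ε K n → ∀ r ≤ 1,
      A ∉ bad n r (2 ^ (n / (4 * K))) := by
  classical
  obtain ⟨n₀, hn₀⟩ := eventually_atTop.1 (asy hK)
  set B : ℕ → Set Oracle := fun n => if n₀ ≤ n ∧ Hn ε K n then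
    bad n 0 (2 ^ (n / (4 * K))) ∪ bad n 1 (2 ^ (n / (4 * K))) else ∅ with hB
  have hle : ∀ n, μ (B n) ≤ ENNReal.ofReal (2 * (1 / 2) ^ n) := by
    intro n
    rw [hB]
    dsimp only
    split_ifs with hc
    · have h0 := bad_le' h (r := 0) (by norm_num) hc.2 (hn₀ n hc.1)
      have h1 := bad_le' h (r := 1) (by norm_num) hc.2 (hn₀ n hc.1)
      refine (measure_union_le _ _).trans ((add_le_add h0 h1).trans (le_of_eq ?_))
      rw [← ENNReal.ofReal_add (by positivity) (by positivity)]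
      congr 1
      ring
    · simp
  have hs : Summable (fun n : ℕ => 2 * (1 / 2 : ℝ) ^ n) :=
    (summable_geometric_of_lt_one (by norm_num) (by norm_num)).mul_left 2
  have hae := ae_finite_setOfPred_mem (μ := μ) (s := B)
    (ne_top_of_le_ne_top hs.tsum_ofReal_ne_top (ENNReal.tsum_le_tsum hle))
  filter_upwards [hae] with A hA
  have h1 : ∀ᶠ n in atTop, n ∉ {n | A ∈ B n} := by
    rw [← Nat.cofinite_eq_atTop]
    exact hA.eventually_cofinite_notMem
  filter_upwards [h1, eventually_ge_atTop n₀] with n hn hn0 hH r hr hc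
  apply hn
  show A ∈ B n
  rw [hB]
  dsimp only
  rw [if_pos ⟨hn0, hH⟩]
  interval_cases r
  · exact Or.inl hc
  · exact Or.inr hc

theorem not_small {A : Oracle} {K n r : ℕ} (hK : 1 ≤ K) (hr : r ≤ 1) (hn : 16 * K ≤ n)
    (h : A ∉ bad n r (2 ^ (n / (4 * K)))) :
    ¬ Small A (tl A) (2 ^ (1 / (16 * K : ℝ) * (2 * n + r : ℕ))) (2 * n + r) := by
  rintro ⟨C, hC1, hC2⟩
  refine h ⟨C, ?_, hC2⟩
  have h1 : (2 : ℝ) ^ (1 / (16 * K : ℝ) * (2 * n + r : ℕ)) ≤ 2 ^ (n / (4 * K)) := by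
    rw [← Real.rpow_natCast]
    apply Real.rpow_le_rpow_of_exponent_le (by norm_num)
    have h2 : n < 4 * K * (n / (4 * K) + 1) := Nat.lt_mul_div_succ n (by omega)
    have h3 : (n : ℝ) < 4 * K * ((n / (4 * K) : ℕ) + 1) := by exact_mod_cast h2
    have hK0 : (1 : ℝ) ≤ K := by exact_mod_cast hK
    have h4 : (16 : ℝ) * K ≤ n := by exact_mod_cast hn
    have h5 : (r : ℝ) ≤ 1 := by exact_mod_cast hr
    have h6 : 1 / (16 * K : ℝ) * ((2 * n + r : ℕ) : ℝ) = (2 * n + r) / (16 * K) := by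
      push_cast
      ring
    rw [h6, div_le_iff₀ (by positivity)]
    nlinarith
  have h2 := lt_of_lt_of_le hC1 h1
  have h3 : C.size < 2 ^ (n / (4 * K)) := by exact_mod_cast h2
  exact h3.le

/-- the first positive half -/
theorem posA {ε : ℕ → ℝ} {K : ℕ} (hK : ∀ᶠ l : ℕ in atTop, ∃ m, l ≤ m ∧ m ≤ l ^ K ∧
    1 / (l : ℝ) ^ K ≤ 1 / 2 - ε m) {μ : Measure Oracle} [IsProbabilityMeasure μ]
    (h : Biased ε μ) :
    ∀ᵐ A ∂μ, ∃ L, InTime Lin A L ∧ ∃ δ : ℝ, 0 < δ ∧
      ∀ᶠ n : ℕ in atTop, ¬ Small A L (2 ^ (δ * n)) n := by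
  have hH : ∀ᶠ n in atTop, Hn ε (K + 1) n := by
    have ht : Tendsto (fun n : ℕ => 2 ^ (n / (4 * (K + 1)))) atTop atTop :=
      (tendsto_pow_atTop_atTop_of_one_lt (by norm_num)).comp
        (Pool.Agent.TH707.EC.tendsto_div (by omega))
    filter_upwards [ht.eventually hK, poly_le_two_pow_div (2 * Polynomial.X)
      (E := 4 * (K + 1)) (by omega), eventually_ge_atTop 1] with n h1 h2 hn1
    obtain ⟨m, h3, h4, h5⟩ := h1
    rw [Polynomial.eval_mul, Polynomial.eval_X, Polynomial.eval_ofNat] at h2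
    set s := n / (4 * (K + 1)) with hs
    have h6 : 4 * (K + 1) * s ≤ n := Nat.mul_div_le n _
    have h7 : s * K ≤ n / 2 := by
      rw [Nat.le_div_iff_mul_le (by norm_num)]
      nlinarith
    have h8 : s * K < n := by omega
    refine ⟨m, h3, by omega, ?_, ?_⟩
    · refine lt_of_le_of_lt h4 ?_
      rw [← pow_mul]
      exact Nat.pow_lt_pow_right (by norm_num) h8
    · have h9 : (1 : ℝ) / ((2 ^ s : ℕ) : ℝ) ^ K * 2 ^ (n / 2) ≤ (1 / 2 - ε m) * 2 ^ (n / 2) :=
        mul_le_mul_of_nonneg_right h5 (by positivity)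
      refine le_trans ?_ h9
      push_cast
      rw [← pow_mul, one_div, inv_mul_eq_div, one_le_div (by positivity)]
      exact pow_le_pow_right₀ (by norm_num) h7
  filter_upwards [hard_good h (K := K + 1) (by omega)] with A hA
  refine ⟨tl A, tl_inTime A, 1 / (16 * ((K + 1 : ℕ) : ℝ)), by positivity, ?_⟩
  obtain ⟨n₀, hn₀⟩ := eventually_atTop.1 (hA.and hH)
  filter_upwards [eventually_ge_atTop (2 * (n₀ + 16 * (K + 1)) + 2)] with n hn
  have h1 := hn₀ (n / 2) (by omega)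
  have h2 := not_small (r := n % 2) (by omega) (by omega) (by omega)
    (h1.1 h1.2 (n % 2) (by omega))
  have h3 : 2 * (n / 2) + n % 2 = n := by omega
  rw [h3] at h2
  exact h2

/-- the second positive half -/
theorem posB {ε : ℕ → ℝ} {K : ℕ} (hK : ∃ᶠ m : ℕ in atTop, 1 / (m : ℝ) ^ K ≤ 1 / 2 - ε m)
    {μ : Measure Oracle} [IsProbabilityMeasure μ] (h : Biased ε μ) :
    ∀ᵐ A ∂μ, ∃ L, InTime Lin A L ∧ ∃ δ : ℝ, 0 < δ ∧
      ∃ᶠ n : ℕ in atTop, ¬ Small A L (2 ^ (δ * n)) n := by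
  have ht : Tendsto (fun m : ℕ => 4 * (K + 1) * Nat.log 2 m) atTop atTop := by
    refine tendsto_atTop.2 fun b => ?_
    filter_upwards [eventually_ge_atTop (2 ^ b)] with m hm
    have h1 : b ≤ Nat.log 2 m := Nat.le_log_of_pow_le (by norm_num) hm
    nlinarith
  have hH : ∃ᶠ n in atTop, Hn ε (K + 1) n := by
    refine ht.frequently ?_
    have hpoly : ∀ᶠ m : ℕ in atTop, 2 * (4 * (K + 1) * Nat.log 2 m) + 1 ≤ m ∧ 4 ≤ m := by
      have h1 : Tendsto (fun m : ℕ => Nat.log 2 m) atTop atTop := by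
        refine tendsto_atTop.2 fun b => ?_
        filter_upwards [eventually_ge_atTop (2 ^ b)] with m hm
        exact Nat.le_log_of_pow_le (by norm_num) hm
      have h2 := h1.eventually (poly_le_two_pow_div
        (Polynomial.C (2 * (4 * (K + 1))) * Polynomial.X) (E := 1) le_rfl)
      filter_upwards [h2, eventually_ge_atTop 4] with m hm hm4
      refine ⟨?_, hm4⟩
      rw [Polynomial.eval_mul, Polynomial.eval_C, Polynomial.eval_X, Nat.div_one] at hm
      have h3 : 2 ^ Nat.log 2 m ≤ m := Nat.pow_log_le_self 2 (by omega)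
      rw [mul_assoc] at hm
      omega
    refine (hK.and_eventually hpoly).mono ?_
    rintro m ⟨h1, h2, h3⟩
    set l := Nat.log 2 m with hl
    have hl2 : 2 ≤ l := Nat.le_log_of_pow_le (by norm_num) (by omega)
    have h4 : 2 ^ l ≤ m := Nat.pow_log_le_self 2 (by omega)
    have h5 : m < 2 ^ (l + 1) := Nat.lt_pow_succ_log_self (by norm_num) m
    refine ⟨m, ?_, h2, ?_, ?_⟩
    · rw [Nat.mul_div_cancel_left _ (by omega)]
      exact h4
    · refine lt_of_lt_of_le h5 (Nat.pow_le_pow_right (by norm_num) ?_)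
      nlinarith
    · have h6 : 4 * (K + 1) * l / 2 = 2 * (K + 1) * l := by
        have : 4 * (K + 1) * l = 2 * (2 * (K + 1) * l) := by ring
        rw [this, Nat.mul_div_cancel_left _ (by norm_num)]
      rw [h6]
      have h9 : (1 : ℝ) / (m : ℝ) ^ K * 2 ^ (2 * (K + 1) * l) ≤
          (1 / 2 - ε m) * 2 ^ (2 * (K + 1) * l) :=
        mul_le_mul_of_nonneg_right h1 (by positivity)
      refine le_trans ?_ h9
      have hm0 : (0 : ℝ) < m := by
        have : 0 < m := by omega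
        exact_mod_cast this
      rw [one_div, inv_mul_eq_div, one_le_div (by positivity)]
      have h10 : (m : ℝ) ^ K ≤ (2 ^ (l + 1)) ^ K := by
        refine pow_le_pow_left₀ hm0.le ?_ K
        exact_mod_cast h5.le
      refine h10.trans ?_
      rw [← pow_mul]
      refine pow_le_pow_right₀ (by norm_num) ?_
      nlinarith
  filter_upwards [hard_good h (K := K + 1) (by omega)] with A hA
  refine ⟨tl A, tl_inTime A, 1 / (16 * ((K + 1 : ℕ) : ℝ)), by positivity, ?_⟩
  have h1 : ∃ᶠ n in atTop, ¬ Small A (tl A)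
      (2 ^ (1 / (16 * ((K + 1 : ℕ) : ℝ)) * (2 * n + 0 : ℕ))) (2 * n + 0) := by
    refine ((hH.and_eventually hA).and_eventually (eventually_ge_atTop (16 * (K + 1)))).mono ?_
    rintro n ⟨⟨h2, h3⟩, h4⟩
    exact not_small (by omega) (by omega) h4 (h3 h2 0 (by omega))
  have h2 : Tendsto (fun n : ℕ => 2 * n + 0) atTop atTop :=
    tendsto_atTop_mono (fun n => by simp only [id]; omega) tendsto_id
  exact h2.frequently h1

end Pool.Agent.TH755.BE
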